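import Mathlib
import Pool.Agent.R945.LD.Border

set_option autoImplicit false
set_option linter.unusedSectionVars false

namespace Pool.Agent.R945.CD

open Finset Matrix Pool.Agent.R945.LD

/-- determinant of `[[X,Y],[Y,X]]` -/
lemma det_swap_blocks {n R : Type*} [Fintype n] [DecidableEq n] [CommRing R] (X Y : Matrix n n R) :
    (fromBlocks X Y Y X).det = (X + Y).det * (X - Y).det := by
  have h : fromBlocks (1 : Matrix n n R) 1 0 1 * fromBlocks X Y Y X * fromBlocks 1 (-1) 0 1 =
      fromBlocks (X + Y) 0 Y (X - Y) := by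
    rw [fromBlocks_multiply, fromBlocks_multiply]
    congr 1 <;> simp <;> abel
  have h2 := congrArg Matrix.det h
  rw [det_mul, det_mul, det_fromBlocks_zero₂₁, det_fromBlocks_zero₂₁, det_fromBlocks_zero₁₂] at h2
  simpa using h2

/-- determinant of `[[X,Y],[-Y,-X]]` -/
lemma det_swap_blocks_neg {n R : Type*} [Fintype n] [DecidableEq n] [CommRing R] (X Y : Matrix n n R) :
    (fromBlocks X Y (-Y) (-X)).det = (-1) ^ (Fintype.card n) * ((X + Y).det * (X - Y).det) := by
  have h : fromBlocks X Y (-Y) (-X) = fromBlocks (1 : Matrix n n R) 0 0 (-1) * fromBlocks X Y Y X := by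
    rw [fromBlocks_multiply]
    congr 1 <;> simp
  rw [h, det_mul, det_fromBlocks_zero₂₁, det_swap_blocks, det_one, one_mul, det_neg, det_one, mul_one]

/-- the minor of a matrix with zero row and column sums. -/
lemma det_add_ones {n : ℕ} (A : Matrix (Fin (n + 1)) (Fin (n + 1)) ℤ) (hr : ∀ i, ∑ j, A i j = 0)
    (hc : ∀ j, ∑ i, A i j = 0) :
    (Matrix.of fun i j => A i j + 1).det =
      ((n : ℤ) + 1) ^ 2 * (A.submatrix Fin.succ Fin.succ).det := by
  set B : Matrix (Fin (n + 1)) (Fin (n + 1)) ℤ := Matrix.of fun i j => A i j + 1 with hB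
  have h1 := det_updateCol_sum B 0 (fun _ => 1)
  simp only [one_smul] at h1
  set B1 := B.updateCol 0 (fun i => ∑ k, B i k) with hB1
  have h1' : B1.det = B.det := by
    rw [← h1]
  have h2 := det_updateRow_sum B1 0 (fun _ => 1)
  simp only [one_smul] at h2
  have hM : B1.updateRow 0 (∑ k, B1 k) = bd ((n + 1 : ℤ) ^ 2) (fun _ => (n + 1 : ℤ))
      (fun _ => (n + 1 : ℤ)) (Matrix.of fun j k => A j.succ k.succ + 1) := by
    have hB10 : ∀ i, B1 i 0 = n + 1 := by
      intro i
      rw [hB1, updateCol_self, hB]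
      simp only [of_apply]
      rw [Finset.sum_add_distrib, hr]
      simp
    have hB1s : ∀ i (k : Fin n), B1 i k.succ = A i k.succ + 1 := by
      intro i k
      rw [hB1, updateCol_ne (Fin.succ_ne_zero k), hB, of_apply]
    have hsa : ∀ c, (∑ k, B1 k) c = ∑ k, B1 k c := fun c =>
      Finset.sum_apply c Finset.univ (fun k => (B1 k : Fin (n + 1) → ℤ))
    apply eq_bd
    · rw [updateRow_self, hsa]
      rw [Finset.sum_congr rfl (fun i _ => hB10 i)]
      simp
      ring
    · intro k
      rw [updateRow_self, hsa]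
      rw [Finset.sum_congr rfl (fun i _ => hB1s i k), Finset.sum_add_distrib, hc]
      simp
    · intro j
      rw [updateRow_ne (Fin.succ_ne_zero j), hB10]
    · intro j k
      rw [updateRow_ne (Fin.succ_ne_zero j), hB1s, of_apply]
  rw [hM] at h2
  rw [← h1', ← h2]
  have h3 := bd_scale ((n : ℤ) + 1) ((n : ℤ) + 1) (fun _ => (1 : ℤ)) (fun _ => (1 : ℤ))
    (Matrix.of fun j k : Fin n => A j.succ k.succ + 1)
  rw [bd_corner] 
  simp only [mul_one] at h3
  rw [h3, bd_zero]
  have h4 : (Matrix.of fun j k : Fin n => (Matrix.of fun j k : Fin n => A j.succ k.succ + 1) j k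
      - (1 : ℤ) * 1) = A.submatrix Fin.succ Fin.succ := by
    ext j k
    simp
  rw [h4]
  ring

section zmod

variable {m : ℕ} [NeZero m]

lemma sum_zmod_range' {M : Type*} [AddCommMonoid M] (f : ZMod m → M) :
    ∑ i ∈ range m, f (i : ZMod m) = ∑ a : ZMod m, f a := by
  apply Finset.sum_bij (fun (i : ℕ) _ => (i : ZMod m))
  · intro a _; simp
  · intro a ha b hb hab
    rw [Finset.mem_range] at ha hb
    have := congrArg ZMod.val hab
    rwa [ZMod.val_natCast_of_lt ha, ZMod.val_natCast_of_lt hb] at this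
  · intro b _
    exact ⟨b.val, by simpa using ZMod.val_lt b, by simp⟩
  · intro a _; rfl

/-- sums over `ZMod m` folded to a half system. -/
lemma sum_half' {M : Type*} [AddCommMonoid M] (r : ℕ) (hm : m = 2 * r + 1) (f : ZMod m → M) :
    ∑ a : ZMod m, f a = f 0 + ∑ j : Fin r, (f (((j : ℕ) : ZMod m) + 1) + f (-(((j : ℕ) : ZMod m) + 1))) := by
  rw [← sum_zmod_range']
  have h2 : m = (r + r) + 1 := by omega
  have h3 : ∑ i ∈ range m, f (i : ZMod m) = ∑ i ∈ range ((r + r) + 1), f (i : ZMod m) := by
    rw [← h2]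
  rw [h3, Finset.sum_range_succ', Finset.sum_range_add, add_comm]
  congr 1
  · simp
  · rw [Finset.sum_add_distrib]
    congr 1
    · rw [Fin.sum_univ_eq_sum_range (fun j => f ((j : ZMod m) + 1))]
      apply Finset.sum_congr rfl
      intro i _
      push_cast
      rfl
    · rw [Fin.sum_univ_eq_sum_range (fun j => f (-((j : ZMod m) + 1)))]
      rw [← Finset.sum_range_reflect]
      apply Finset.sum_congr rfl
      intro i hi
      rw [Finset.mem_range] at hi
      congr 1
      have e : ((r + (r - 1 - i) + 1 : ℕ) : ZMod m) + ((i : ZMod m) + 1) = 0 := by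
        have : ((r + (r - 1 - i) + 1 : ℕ) : ZMod m) + ((i : ZMod m) + 1) =
            ((r + (r - 1 - i) + 1 + (i + 1) : ℕ) : ZMod m) := by push_cast; ring
        rw [this]
        have e2 : r + (r - 1 - i) + 1 + (i + 1) = m := by omega
        rw [e2]; simp
      exact eq_neg_of_add_eq_zero_left e

/-- the residue `i+1`. -/
def I (m : ℕ) (i : ℕ) : ZMod m := (i : ZMod m) + 1

/-- even and odd parts of a circulant matrix -/
def Pp (m r : ℕ) (φ : ZMod m → ℤ) : Matrix (Fin r) (Fin r) ℤ :=
  Matrix.of fun i j => φ (I m i - I m j) + φ (I m i + I m j)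

def Pn (m r : ℕ) (φ : ZMod m → ℤ) : Matrix (Fin r) (Fin r) ℤ :=
  Matrix.of fun i j => φ (I m i - I m j) - φ (I m i + I m j)

/-- the even basis functions -/
def ep (m : ℕ) (j : ℕ) (x : ZMod m) : ℤ := (if x = I m j then 1 else 0) + (if x = - I m j then 1 else 0)

lemma ep_neg (j : ℕ) (x : ZMod m) : ep m j (-x) = ep m j x := by
  unfold ep
  rw [add_comm]
  congr 1
  · congr 1
    exact propext neg_inj
  · congr 1
    rw [neg_eq_iff_eq_neg]

def Dm (m r : ℕ) : Matrix (Fin r) (Fin r) ℤ :=
  Matrix.of fun i j => ep m j (I m i + 1) - ep m j (I m i - 1)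

lemma sum_ep (r : ℕ) (hm : m = 2 * r + 1) (h : ZMod m → ℤ) (h0 : h 0 = 0) (he : ∀ x, h (-x) = h x)
    (x : ZMod m) : ∑ k : Fin r, ep m k x * h (I m k) = h x := by
  have h1 := sum_half' r hm (fun y => (if x = y then 1 else 0) * h y)
  have h2 : ∑ y : ZMod m, (if x = y then 1 else 0) * h y = h x := by simp
  rw [h2, h0] at h1
  rw [h1, mul_zero, zero_add]
  apply Finset.sum_congr rfl
  intro k _
  have e : ∀ y, h (-y) = h y := he
  rw [e]
  unfold ep I
  ring

lemma ep_conv (j : ℕ) (φ : ZMod m → ℤ) (c : ZMod m) :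
    ∑ y : ZMod m, φ (c - y) * ep m j y = φ (c - I m j) + φ (c + I m j) := by
  unfold ep
  simp only [mul_add, Finset.sum_add_distrib, mul_ite, mul_one, mul_zero, Finset.sum_ite_eq',
    Finset.mem_univ, if_true, sub_neg_eq_add]

lemma inter (r : ℕ) (hm : m = 2 * r + 1) (φ : ZMod m → ℤ) (he : ∀ x, φ (-x) = φ x)
    (hsum : ∑ x : ZMod m, φ x = 0) :
    Pn m r φ * Dm m r = Dm m r * ((Matrix.of fun i j : Fin r => (if i = j then (1 : ℤ) else 0) + 2) * Pp m r φ) := by
  ext i j
  rw [Matrix.mul_apply, Matrix.mul_apply]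
  -- left side
  have hL : ∑ k, Pn m r φ i k * Dm m r k j =
      (φ (I m i + 1 - I m j) + φ (I m i + 1 + I m j)) - (φ (I m i - 1 - I m j) + φ (I m i - 1 + I m j)) := by
    set d : ZMod m → ℤ := fun x => ep m j (x + 1) - ep m j (x - 1) with hd
    have hdodd : ∀ x, d (-x) = - d x := by
      intro x
      rw [hd]; simp only
      have e1 : -x + 1 = -(x - 1) := by ring
      have e2 : -x - 1 = -(x + 1) := by ring
      rw [e1, e2, ep_neg, ep_neg]; ring
    have h1 := sum_half' r hm (fun x => φ (I m i - x) * d x)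
    have hd0 : d 0 = 0 := by
      have := hdodd 0
      rw [neg_zero] at this; omega
    rw [hd0, mul_zero, zero_add] at h1
    have h2 : ∑ x : ZMod m, φ (I m i - x) * d x =
        (φ (I m i + 1 - I m j) + φ (I m i + 1 + I m j)) - (φ (I m i - 1 - I m j) + φ (I m i - 1 + I m j)) := by
      rw [← ep_conv, ← ep_conv]
      have e1 : ∑ y : ZMod m, φ (I m i + 1 - y) * ep m j y = ∑ x : ZMod m, φ (I m i - x) * ep m j (x + 1) := by
        symm
        apply Fintype.sum_equiv (Equiv.addRight (1 : ZMod m))
        intro x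
        show _ = φ (I m i + 1 - (x + 1)) * ep m j (x + 1)
        congr 2; ring
      have e2 : ∑ y : ZMod m, φ (I m i - 1 - y) * ep m j y = ∑ x : ZMod m, φ (I m i - x) * ep m j (x - 1) := by
        symm
        apply Fintype.sum_equiv (Equiv.addRight (-1 : ZMod m))
        intro x
        show _ = φ (I m i - 1 - (x + -1)) * ep m j (x + -1)
        rw [← sub_eq_add_neg]
        congr 2; ring
      rw [e1, e2, ← Finset.sum_sub_distrib]
      apply Finset.sum_congr rfl
      intro x _
      rw [hd]; ring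
    rw [← h2, h1]
    apply Finset.sum_congr rfl
    intro k _
    simp only [Pn, Dm, Matrix.of_apply]
    have e3 := hdodd (I m k)
    rw [show -(((k : ℕ) : ZMod m) + 1) = - I m k from rfl, e3]
    rw [show (((k : ℕ) : ZMod m) + 1) = I m k from rfl, sub_neg_eq_add]
    rw [hd]; ring
  rw [hL]
  -- right side
  set h : ZMod m → ℤ := fun x => φ (x - I m j) + φ (x + I m j) - (φ (- I m j) + φ (I m j)) with hh
  have hP' : ∀ k : Fin r, ((Matrix.of fun i j : Fin r => (if i = j then (1 : ℤ) else 0) + 2) * Pp m r φ) k j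
      = h (I m k) := by
    intro k
    rw [Matrix.mul_apply]
    simp only [Matrix.of_apply, add_mul, Finset.sum_add_distrib, ite_mul, one_mul, zero_mul,
      Finset.sum_ite_eq, Finset.mem_univ, if_true]
    rw [← Finset.mul_sum]
    have h1 := sum_half' r hm (fun x => φ (x - I m j))
    have h2 : ∑ x : ZMod m, φ (x - I m j) = 0 := by
      rw [← hsum]
      apply Fintype.sum_equiv (Equiv.subRight (I m j))
      intro x; rfl
    rw [h2] at h1
    have h3 : ∑ i : Fin r, Pp m r φ i j = - φ (I m j) := by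
      have e4 : ∑ i : Fin r, Pp m r φ i j =
          ∑ i : Fin r, (φ (((i : ℕ) : ZMod m) + 1 - I m j) + φ (-(((i : ℕ) : ZMod m) + 1) - I m j)) := by
        apply Finset.sum_congr rfl
        intro i _
        simp only [Pp, Matrix.of_apply]
        have e5 : φ (-(((i : ℕ) : ZMod m) + 1) - I m j) = φ (I m i + I m j) := by
          rw [← he]; congr 1; unfold I; ring
        rw [e5]; rfl
      rw [e4]
      rw [zero_sub, he] at h1
      omega
    rw [h3, hh]
    simp only [Pp, Matrix.of_apply]
    rw [he (I m j)]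
    ring
  rw [Finset.sum_congr rfl (fun k _ => by rw [hP' k])]
  have hhe : ∀ x, h (-x) = h x := by
    intro x
    rw [hh]; simp only
    have e1 : φ (-x - I m j) = φ (x + I m j) := by rw [← he]; congr 1; ring
    have e2 : φ (-x + I m j) = φ (x - I m j) := by rw [← he]; congr 1; ring
    rw [e1, e2]; ring
  have hh0 : h 0 = 0 := by
    rw [hh]; simp
  have e1 := sum_ep r hm h hh0 hhe (I m i + 1)
  have e2 := sum_ep r hm h hh0 hhe (I m i - 1)
  have e3 : ∑ k : Fin r, Dm m r i k * h (I m k) = h (I m i + 1) - h (I m i - 1) := by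
    rw [← e1, ← e2, ← Finset.sum_sub_distrib]
    apply Finset.sum_congr rfl
    intro k _
    simp only [Dm, Matrix.of_apply]
    ring
  rw [e3, hh]
  ring

lemma det_Dm (r : ℕ) (hm : m = 2 * r + 1) : (Dm m r).det ≠ 0 := by
  intro h0
  obtain ⟨u, hu0, hu⟩ := Matrix.exists_mulVec_eq_zero_iff.mpr h0
  apply hu0
  set H : ZMod m → ℤ := fun x => ∑ j : Fin r, ep m j x * u j with hH
  have hHe : ∀ x, H (-x) = H x := by
    intro x; rw [hH]; simp only
    apply Finset.sum_congr rfl
    intro j _
    rw [ep_neg]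
  have hstep : ∀ x, H (x + 1) = H (x - 1) := by
    have h1 : ∀ i : Fin r, H (I m i + 1) = H (I m i - 1) := by
      intro i
      have := congrFun hu i
      simp only [Matrix.mulVec, dotProduct, Dm, Matrix.of_apply, Pi.zero_apply, sub_mul,
        Finset.sum_sub_distrib] at this
      rw [hH]
      simp only
      omega
    intro x
    -- every `x` is `0`, `I i` or `- I i`
    have hx : x = 0 ∨ (∃ i : Fin r, x = I m i) ∨ (∃ i : Fin r, x = - I m i) := by
      by_contra hcon
      push Not at hcon
      obtain ⟨c0, c1, c2⟩ := hcon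
      have h2 := sum_half' r hm (fun y => if x = y then (1 : ℤ) else 0)
      have h3 : ∑ y : ZMod m, (if x = y then (1 : ℤ) else 0) = 1 := by simp
      rw [h3, if_neg c0, Finset.sum_eq_zero] at h2
      · norm_num at h2
      · intro i _
        rw [if_neg (show x ≠ ((i : ℕ) : ZMod m) + 1 from c1 i),
          if_neg (show x ≠ -(((i : ℕ) : ZMod m) + 1) from c2 i)]
        norm_num
    rcases hx with rfl | ⟨i, rfl⟩ | ⟨i, rfl⟩
    · rw [zero_add, zero_sub, hHe]
    · exact h1 i
    · have e1 : - I m i + 1 = -(I m i - 1) := by ring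
      have e2 : - I m i - 1 = -(I m i + 1) := by ring
      rw [e1, e2, hHe, hHe, h1 i]
  have hper : ∀ k : ℕ, H ((2 * k : ℕ) : ZMod m) = H 0 := by
    intro k
    induction k with
    | zero => simp
    | succ k ih =>
      rw [← ih]
      have := hstep ((2 * k : ℕ) + 1 : ZMod m)
      rw [add_sub_cancel_right] at this
      rw [← this]
      congr 1
      push_cast
      ring
  have hall : ∀ x, H x = H 0 := by
    intro x
    have h1 := hper (x.val * (r + 1))
    rw [← h1]
    congr 1
    push_cast
    have h2 : (2 : ZMod m) * (r + 1) = 1 := by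
      have : ((m : ℕ) : ZMod m) = 0 := ZMod.natCast_self m
      rw [hm] at this
      push_cast at this
      rw [show m = 2 * r + 1 from hm]
      linear_combination this
    rw [ZMod.natCast_zmod_val]
    linear_combination (-x) * h2
  have hH0 : H 0 = 0 := by
    rw [hH]; simp only
    apply Finset.sum_eq_zero
    intro j _
    have hj : I m j ≠ 0 := by
      intro h
      have h1 : ((j.val + 1 : ℕ) : ZMod m) = 0 := by push_cast; exact h
      rw [ZMod.natCast_eq_zero_iff] at h1
      have := Nat.le_of_dvd (by omega) h1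
      omega
    unfold ep
    rw [if_neg (Ne.symm hj), if_neg (by rw [eq_comm, neg_eq_zero]; exact hj)]
    simp
  funext j
  have h1 := hall (I m j)
  rw [hH0, hH] at h1
  simp only at h1
  rw [Finset.sum_eq_single j] at h1
  · have hj2 : I m j ≠ - I m j := by
      intro h
      have h1 : ((2 * (j.val + 1) : ℕ) : ZMod m) = 0 := by
        push_cast
        unfold I at h
        linear_combination h
      rw [ZMod.natCast_eq_zero_iff] at h1
      have := Nat.le_of_dvd (by omega) h1
      omega
    unfold ep at h1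
    rw [if_pos rfl, if_neg hj2] at h1
    simpa using h1
  · intro b _ hb
    have hb1 : I m j ≠ I m b := by
      intro h
      apply hb
      have h1 : (b : ZMod m) = (j : ZMod m) := by
        unfold I at h; linear_combination -h
      have := congrArg ZMod.val h1
      rw [ZMod.val_natCast_of_lt (by omega), ZMod.val_natCast_of_lt (by omega)] at this
      exact Fin.ext this
    have hb2 : I m j ≠ - I m b := by
      intro h
      have h1 : (((j.val + 1) + (b.val + 1) : ℕ) : ZMod m) = 0 := by
        push_cast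
        unfold I at h
        linear_combination h
      rw [ZMod.natCast_eq_zero_iff] at h1
      have := Nat.le_of_dvd (by omega) h1
      omega
    unfold ep
    rw [if_neg hb1, if_neg hb2]
    simp
  · intro h; exact absurd (Finset.mem_univ j) h

theorem det_Pn (r : ℕ) (hm : m = 2 * r + 1) (φ : ZMod m → ℤ) (he : ∀ x, φ (-x) = φ x)
    (hsum : ∑ x : ZMod m, φ x = 0) : (Pn m r φ).det = m * (Pp m r φ).det := by
  have h := congrArg Matrix.det (inter r hm φ he hsum)
  rw [det_mul, det_mul, det_mul] at h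
  have h1 : (Matrix.of fun i j : Fin r => (if i = j then (1 : ℤ) else 0) + 2).det = m := by
    have e : (Matrix.of fun i j : Fin r => (if i = j then (1 : ℤ) else 0) + 2) =
        1 + replicateCol Unit (fun _ => (2 : ℤ)) * replicateRow Unit (fun _ => (1 : ℤ)) := by
      ext i j
      simp [Matrix.mul_apply, Matrix.one_apply]
    rw [e, det_one_add_replicateCol_mul_replicateRow]
    simp [dotProduct]
    rw [hm]
    push_cast
    ring
  rw [h1] at h
  apply mul_right_cancel₀ (det_Dm (m := m) r hm)
  rw [h]; ring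

/-- the index map -/
def vv (m r : ℕ) : Fin r ⊕ Fin r → ZMod m := Sum.elim (fun i => I m i) (fun i => - I m i)

lemma vv_inj (r : ℕ) (hm : m = 2 * r + 1) : Function.Injective (vv m r) := by
  have key : ∀ j b : Fin r, I m j = I m b → j = b := by
    intro j b h
    have h1 : (j : ZMod m) = (b : ZMod m) := by
      unfold I at h; linear_combination h
    have := congrArg ZMod.val h1
    rw [ZMod.val_natCast_of_lt (by omega), ZMod.val_natCast_of_lt (by omega)] at this
    exact Fin.ext this
  have key2 : ∀ j b : Fin r, I m j ≠ - I m b := by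
    intro j b h
    have h1 : (((j.val + 1) + (b.val + 1) : ℕ) : ZMod m) = 0 := by
      push_cast
      unfold I at h
      linear_combination h
    rw [ZMod.natCast_eq_zero_iff] at h1
    have := Nat.le_of_dvd (by omega) h1
    omega
  rintro (a | a) (b | b) h
  · exact congrArg _ (key a b h)
  · exact absurd h (key2 a b)
  · exact absurd h.symm (key2 b a)
  · exact congrArg _ (key a b (neg_injective h))

lemma vv_ne (r : ℕ) (hm : m = 2 * r + 1) (x : Fin r ⊕ Fin r) : vv m r x ≠ 0 := by
  have hj : ∀ j : Fin r, I m j ≠ 0 := by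
    intro j h
    have h1 : ((j.val + 1 : ℕ) : ZMod m) = 0 := by push_cast; exact h
    rw [ZMod.natCast_eq_zero_iff] at h1
    have := Nat.le_of_dvd (by omega) h1
    omega
  rcases x with a | a
  · exact hj a
  · exact neg_ne_zero.mpr (hj a)

/-- the circulant matrix without the index `0`. -/
def Cm (m r : ℕ) (φ : ZMod m → ℤ) : Matrix (Fin r ⊕ Fin r) (Fin r ⊕ Fin r) ℤ :=
  Matrix.of fun x y => φ (vv m r x - vv m r y)

theorem det_Cm_odd (r : ℕ) (φ : ZMod m → ℤ) (ho : ∀ x, φ (-x) = - φ x) :
    (Cm m r φ).det = ((Pp m r φ).det) ^ 2 := by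
  set X : Matrix (Fin r) (Fin r) ℤ := Matrix.of fun i j => φ (I m i - I m j) with hX
  set Y : Matrix (Fin r) (Fin r) ℤ := Matrix.of fun i j => φ (I m i + I m j) with hY
  have h1 : Cm m r φ = fromBlocks X Y (-Y) (-X) := by
    ext x y
    rcases x with a | a <;> rcases y with b | b
    · rfl
    · simp [Cm, vv, hY, Matrix.fromBlocks]
    · simp only [Cm, vv, hY, Matrix.fromBlocks, Matrix.of_apply, Sum.elim_inr, Sum.elim_inl,
        Matrix.neg_apply]
      rw [← ho]; congr 1; ring
    · simp only [Cm, vv, hX, Matrix.fromBlocks, Matrix.of_apply, Sum.elim_inr,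
        Matrix.neg_apply]
      rw [← ho]; congr 1; ring
  have h2 : X + Y = Pp m r φ := by ext i j; rfl
  have h3 : X - Y = - (Pp m r φ)ᵀ := by
    ext i j
    simp only [Pp, hX, hY, Matrix.sub_apply, Matrix.of_apply, Matrix.neg_apply, Matrix.transpose_apply]
    have e : φ (I m j - I m i) = - φ (I m i - I m j) := by rw [← ho]; congr 1; ring
    rw [e, add_comm (I m j)]; ring
  rw [h1, det_swap_blocks_neg, h2, h3, det_neg, det_transpose, Fintype.card_fin]
  have : ((-1 : ℤ) ^ r) * (-1) ^ r = 1 := by rw [← mul_pow]; simp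
  linear_combination ((Pp m r φ).det) ^ 2 * this

theorem det_Cm_even (r : ℕ) (hm : m = 2 * r + 1) (φ : ZMod m → ℤ) (he : ∀ x, φ (-x) = φ x)
    (hsum : ∑ x : ZMod m, φ x = 0) :
    (Cm m r φ).det = m * ((Pp m r φ).det) ^ 2 := by
  set X : Matrix (Fin r) (Fin r) ℤ := Matrix.of fun i j => φ (I m i - I m j) with hX
  set Y : Matrix (Fin r) (Fin r) ℤ := Matrix.of fun i j => φ (I m i + I m j) with hY
  have h1 : Cm m r φ = fromBlocks X Y Y X := by
    ext x y
    rcases x with a | a <;> rcases y with b | b
    · rfl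
    · simp [Cm, vv, hY, Matrix.fromBlocks]
    · simp only [Cm, vv, hY, Matrix.fromBlocks, Matrix.of_apply, Sum.elim_inr, Sum.elim_inl]
      rw [← he]; congr 1; ring
    · simp only [Cm, vv, hX, Matrix.fromBlocks, Matrix.of_apply, Sum.elim_inr]
      rw [← he]; congr 1; ring
  have h2 : X + Y = Pp m r φ := by ext i j; rfl
  have h3 : X - Y = Pn m r φ := by ext i j; rfl
  rw [h1, det_swap_blocks, h2, h3, det_Pn r hm φ he hsum]
  ring

end zmod

end Pool.Agent.R945.CD
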