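import Mathlib
import Pool.Agent.R945.CD.Circ
import Pool.Agent.R945.CM.Det

set_option autoImplicit false
set_option linter.unusedSectionVars false

namespace Pool.Agent.R945.CD

open Finset Matrix Pool.Agent.R945.LD Pool.Agent.R945.CM

section shift

variable {m : ℕ} [NeZero m]

/-- the circulant matrix plus the all-ones matrix, indexed by `ZMod m` -/
def Fm (m : ℕ) (φ : ZMod m → ℤ) : Matrix (ZMod m) (ZMod m) ℤ := Matrix.of fun x y => φ (x - y) + 1

lemma shift_det (r : ℕ) (hm : m = 2 * r + 1) (φ : ZMod m → ℤ) (b : ZMod m) :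
    (Fm m (fun x => φ (x + b))).det = (Fm m φ).det := by
  -- halve the shift
  have h2 : (2 : ZMod m) * (r + 1) = 1 := by
    have : ((m : ℕ) : ZMod m) = 0 := ZMod.natCast_self m
    have h3 : ((m : ℕ) : ZMod m) = 2 * (r : ZMod m) + 1 := by
      have := congrArg (Nat.cast : ℕ → ZMod m) hm
      push_cast at this
      simpa using this
    rw [this] at h3
    linear_combination -h3
  set c : ZMod m := b * (r + 1) with hc
  have hcc : c + c = b := by rw [hc]; linear_combination b * h2
  have h1 : Fm m (fun x => φ (x + b)) = ((Fm m φ).submatrix (Equiv.addRight b) id) := by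
    ext x y
    simp only [Fm, Matrix.of_apply, Matrix.submatrix_apply, Equiv.coe_addRight, id_eq]
    congr 2; ring
  have h3 : (Equiv.addRight b : Equiv.Perm (ZMod m)) = Equiv.addRight c * Equiv.addRight c := by
    ext x
    simp only [Equiv.Perm.coe_mul, Function.comp_apply, Equiv.coe_addRight]
    rw [add_assoc, hcc]
  rw [h1, Matrix.det_permute, h3, Equiv.Perm.sign_mul, Int.units_mul_self]
  simp

lemma minor_eq (r : ℕ) (hm : m = 2 * r + 1) (φ : ZMod m → ℤ) (hsum : ∑ x, φ x = 0) :
    (Fm m φ).det = ((2 * r : ℕ) + 1 : ℤ) ^ 2 * (Cm m r φ).det := by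
  -- reindex to `Fin (2r+1)`
  let κ : Fin (2 * r + 1) ≃ ZMod m := Equiv.ofBijective (fun x => ((x : ℕ) : ZMod m)) (by
    constructor
    · intro a b hab
      have := congrArg ZMod.val hab
      simp only at this
      rw [ZMod.val_natCast_of_lt (by omega), ZMod.val_natCast_of_lt (by omega)] at this
      exact Fin.ext this
    · intro b
      have := ZMod.val_lt b
      exact ⟨⟨b.val, by omega⟩, by simp⟩)
  have hκ : ∀ x : Fin (2 * r + 1), κ x = ((x : ℕ) : ZMod m) := fun x => rfl
  set A : Matrix (Fin (2 * r + 1)) (Fin (2 * r + 1)) ℤ := Matrix.of fun x y => φ (κ x - κ y) with hA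
  have h1 : (Fm m φ).det = (Matrix.of fun i j => A i j + 1).det := by
    rw [← Matrix.det_submatrix_equiv_self κ (Fm m φ)]
    rfl
  have hr : ∀ i, ∑ j, A i j = 0 := by
    intro i
    rw [← hsum]
    apply Fintype.sum_equiv (κ.trans (Equiv.subLeft (κ i)))
    intro j; rfl
  have hc : ∀ j, ∑ i, A i j = 0 := by
    intro j
    rw [← hsum]
    apply Fintype.sum_equiv (κ.trans (Equiv.subRight (κ j)))
    intro i; rfl
  rw [h1, det_add_ones A hr hc]
  congr 1
  -- reindex the minor
  have hne : ∀ x : Fin r ⊕ Fin r, (vv m r x).val ≠ 0 := by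
    intro x
    rw [Ne, ZMod.val_eq_zero]; exact vv_ne r hm x
  have hlt : ∀ x : Fin r ⊕ Fin r, (vv m r x).val - 1 < 2 * r := by
    intro x
    have h2 := ZMod.val_lt (vv m r x)
    have h3 := hne x
    omega
  have hinj : Function.Injective (fun x : Fin r ⊕ Fin r => (⟨(vv m r x).val - 1, hlt x⟩ : Fin (2 * r))) := by
    intro x y hxy
    apply vv_inj r hm
    have h2 : (vv m r x).val - 1 = (vv m r y).val - 1 := congrArg Fin.val hxy
    have h3 := hne x
    have h4 := hne y
    apply ZMod.val_injective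
    omega
  have hbij : Function.Bijective (fun x : Fin r ⊕ Fin r => (⟨(vv m r x).val - 1, hlt x⟩ : Fin (2 * r))) := by
    rw [Fintype.bijective_iff_injective_and_card]
    exact ⟨hinj, by simp; ring⟩
  let σ := Equiv.ofBijective _ hbij
  rw [← Matrix.det_submatrix_equiv_self σ (A.submatrix Fin.succ Fin.succ)]
  congr 1
  ext x y
  have hσ : ∀ x, κ (σ x).succ = vv m r x := by
    intro x
    rw [hκ]
    have h3 := hne x
    have h4 : ((σ x).succ : ℕ) = (vv m r x).val := by
      show (vv m r x).val - 1 + 1 = _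
      omega
    rw [h4, ZMod.natCast_zmod_val]
  simp only [Matrix.submatrix_apply, hA, Matrix.of_apply, Cm, hσ]

/-- shifting does not change the minor -/
theorem Cm_shift (r : ℕ) (hm : m = 2 * r + 1) (φ : ZMod m → ℤ) (hsum : ∑ x, φ x = 0) (b : ZMod m) :
    (Cm m r φ).det = (Cm m r (fun x => φ (x + b))).det := by
  have h1 := minor_eq r hm φ hsum
  have h2 := minor_eq r hm (fun x => φ (x + b)) (by
    rw [← hsum]
    apply Fintype.sum_equiv (Equiv.addRight b)
    intro x; rfl)
  rw [shift_det r hm φ b, h1] at h2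
  have h3 : ((2 * r : ℕ) + 1 : ℤ) ^ 2 ≠ 0 := by positivity
  exact mul_left_cancel₀ h3 h2

end shift

section prime

variable {p : ℕ} [Fact p.Prime]

/-- an element of order `(p-1)/2` which is a square. -/
lemma exists_z (m : ℕ) (hm : p = 2 * m + 1) (hm0 : 0 < m) : ∃ z : ZMod p, orderOf z = m ∧ q p z = 1 := by
  obtain ⟨g, hg⟩ := IsCyclic.exists_generator (α := (ZMod p)ˣ)
  have h1 : orderOf g = 2 * m := by
    rw [orderOf_eq_card_of_forall_mem_zpowers hg, Nat.card_eq_fintype_card, ZMod.card_units]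
    omega
  refine ⟨((g ^ 2 : (ZMod p)ˣ) : ZMod p), ?_, ?_⟩
  · rw [orderOf_units, orderOf_pow, h1]
    rw [Nat.gcd_comm, Nat.gcd_mul_right_right]
    omega
  · push_cast
    rw [sq, q_mul]
    exact q_sq (Units.ne_zero g)

/-- the parametrisation of squares -/
def Z (m : ℕ) (z : ZMod p) (a : ZMod m) : ZMod p := z ^ a.val

variable {m : ℕ} [NeZero m] {z : ZMod p}

lemma Z_add (hz : orderOf z = m) (a b : ZMod m) : Z m z (a + b) = Z m z a * Z m z b := by
  unfold Z
  rw [ZMod.val_add, ← pow_add]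
  have h := pow_mod_orderOf z (a.val + b.val)
  rw [hz] at h
  exact h

lemma Z_zero : Z m z 0 = 1 := by simp [Z]

lemma Z_ne (hz : orderOf z = m) (a : ZMod m) : Z m z a ≠ 0 := by
  intro h
  have h1 := Z_add hz a (-a)
  rw [add_neg_cancel, Z_zero, h, zero_mul] at h1
  exact one_ne_zero h1

lemma Z_sub (hz : orderOf z = m) (a b : ZMod m) : Z m z (a - b) = Z m z a / Z m z b := by
  rw [eq_div_iff (Z_ne hz b), ← Z_add hz, sub_add_cancel]

lemma Z_inj (hz : orderOf z = m) : Function.Injective (Z m z) := by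
  intro a b h
  unfold Z at h
  apply ZMod.val_injective
  have hz0 : z ≠ 0 := by
    rintro rfl
    have h1 : orderOf (0 : ZMod p) = 0 := orderOf_zero (ZMod p)
    rw [h1] at hz
    exact NeZero.ne m hz.symm
  exact pow_injOn_Iio_orderOf (by rw [Set.mem_Iio, hz]; exact ZMod.val_lt a)
    (by rw [Set.mem_Iio, hz]; exact ZMod.val_lt b) h

lemma q_Z (hq : q p z = 1) (a : ZMod m) : q p (Z m z a) = 1 := by
  unfold Z
  have : ∀ k : ℕ, q p (z ^ k) = 1 := by
    intro k
    induction k with
    | zero => simp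
    | succ k ih => rw [pow_succ, q_mul, ih, hq]; norm_num
  exact this _

/-- both cosets -/
def W (m : ℕ) (z : ZMod p) : ZMod m ⊕ ZMod m → ZMod p := Sum.elim (fun a => Z m z a) (fun a => - Z m z a)

lemma W_inj (h3 : p % 4 = 3) (hz : orderOf z = m) (hq : q p z = 1) : Function.Injective (W m z) := by
  have key : ∀ a b : ZMod m, Z m z a ≠ - Z m z b := by
    intro a b h
    have h1 := congrArg (q p) h
    rw [q_Z hq, q_neg, q_neg_one_of_three h3, q_Z hq] at h1
    norm_num at h1
  rintro (a | a) (b | b) h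
  · exact congrArg _ (Z_inj hz h)
  · exact absurd h (key a b)
  · exact absurd h.symm (key b a)
  · exact congrArg _ (Z_inj hz (neg_injective h))

lemma W_image (h3 : p % 4 = 3) (hm : p = 2 * m + 1) (hz : orderOf z = m) (hq : q p z = 1) :
    (univ : Finset (ZMod m ⊕ ZMod m)).image (W m z) = univ.erase 0 := by
  apply Finset.eq_of_subset_of_card_le
  · intro x hx
    rw [Finset.mem_image] at hx
    obtain ⟨a, -, rfl⟩ := hx
    rw [Finset.mem_erase]
    refine ⟨?_, Finset.mem_univ _⟩
    rcases a with a | a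
    · exact Z_ne hz a
    · exact neg_ne_zero.mpr (Z_ne hz a)
  · rw [Finset.card_image_of_injective _ (W_inj h3 hz hq), Finset.card_erase_of_mem (Finset.mem_univ _),
      Finset.card_univ, Finset.card_univ, ZMod.card, Fintype.card_sum, ZMod.card]
    omega

lemma sum_W (h3 : p % 4 = 3) (hm : p = 2 * m + 1) (hz : orderOf z = m) (hq : q p z = 1)
    (F : ZMod p → ℤ) :
    ∑ t ∈ univ.erase (0 : ZMod p), F t = ∑ a : ZMod m, F (Z m z a) + ∑ a : ZMod m, F (-Z m z a) := by
  rw [← W_image h3 hm hz hq, Finset.sum_image (fun a _ b _ h => W_inj h3 hz hq h),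
    Fintype.sum_sum_type]
  rfl

/-- the function `f(t) = χ(t²+3t+2)` -/
noncomputable def ff (p : ℕ) [Fact p.Prime] (t : ZMod p) : ℤ := q p (t ^ 2 + 3 * t + 2)

lemma ff_div (j k : ZMod p) (hk : k ≠ 0) :
    q p (j ^ 2 + 3 * j * k + 2 * k ^ 2) = ff p (j / k) := by
  unfold ff
  have e : j ^ 2 + 3 * j * k + 2 * k ^ 2 = (k * k) * ((j / k) ^ 2 + 3 * (j / k) + 2) := by
    field_simp
  rw [e, q_mul, q_mul, q_sq hk, one_mul]

lemma ff_inv (h8 : q p 2 = -1) (t : ZMod p) (ht : t ≠ 0) : ff p (2 / t) = - ff p t := by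
  unfold ff
  have e : (2 / t) ^ 2 + 3 * (2 / t) + 2 = (t⁻¹ * t⁻¹) * (2 * (t ^ 2 + 3 * t + 2)) := by
    field_simp
    ring
  rw [e, q_mul (t⁻¹ * t⁻¹), q_mul t⁻¹, q_sq (inv_ne_zero ht), q_mul 2, h8]
  ring

lemma sum_ff (hp2 : p ≠ 2) (h8 : q p 2 = -1) : ∑ t ∈ univ.erase (0 : ZMod p), ff p t = 0 := by
  have h1 := sum_one hp2 (3 : ZMod p) 2 1 one_ne_zero (two_ne hp2) (by norm_num)
  rw [← Finset.add_sum_erase univ _ (Finset.mem_univ (0 : ZMod p)), h8] at h1
  have e : ∑ t ∈ univ.erase (0 : ZMod p), ff p t =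
      ∑ k ∈ univ.erase (0 : ZMod p), q p (1 ^ 2 + 3 * 1 * k + 2 * k ^ 2) := by
    apply Finset.sum_bij (fun t _ => t⁻¹)
    · intro t ht; simpa using ht
    · intro a _ b _ h; exact inv_injective h
    · intro b hb; exact ⟨b⁻¹, by simpa using hb, by simp⟩
    · intro t ht
      have ht0 : t ≠ 0 := by simpa using ht
      have := ff_div 1 t⁻¹ (inv_ne_zero ht0)
      rw [this]
      congr 1
      simp
  rw [e]
  simp at h1 ⊢
  linarith

lemma sum_qff (h3 : p % 4 = 3) : ∑ t ∈ univ.erase (0 : ZMod p), q p t * ff p t = 0 := by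
  have h1 : ∑ t ∈ univ.erase (0 : ZMod p), q p t * ff p t = ∑ t : ZMod p, q p t * ff p t := by
    rw [← Finset.add_sum_erase univ _ (Finset.mem_univ (0 : ZMod p)), q_zero]
    simp
  rw [h1]
  set G : ZMod p → ℤ := fun y => q p (y - 1) * (q p y * q p (y + 1)) with hG
  have h2 : ∑ t : ZMod p, q p t * ff p t = ∑ y : ZMod p, G y := by
    apply Fintype.sum_equiv (Equiv.addRight (1 : ZMod p))
    intro t
    show q p t * q p (t ^ 2 + 3 * t + 2) = q p (t + 1 - 1) * (q p (t + 1) * q p (t + 1 + 1))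
    rw [← q_mul (t + 1)]
    congr 2
    · ring
    · ring
  have h4 : ∑ y : ZMod p, G y = - ∑ y : ZMod p, G y := by
    conv_lhs => rw [← Equiv.sum_comp (Equiv.neg (ZMod p))]
    rw [← Finset.sum_neg_distrib]
    apply Finset.sum_congr rfl
    intro y _
    rw [hG]
    simp only [Equiv.neg_apply]
    have e1 : -y - 1 = -(y + 1) := by ring
    have e2 : -y + 1 = -(y - 1) := by ring
    rw [e1, e2, q_neg (y + 1), q_neg y, q_neg (y - 1), q_neg_one_of_three h3]
    ring
  rw [h2]
  omega

end prime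

/-- the prime case -/
theorem prime_case (p : ℕ) [Fact p.Prime] (h8 : p % 8 = 3) :
    ∃ x : ℤ, (Matrix.of fun j k : Fin (p - 3) => q p (((j.val + 2 : ℕ) : ZMod p) ^ 2 +
      3 * ((j.val + 2 : ℕ) : ZMod p) * ((k.val + 2 : ℕ) : ZMod p) +
      2 * ((k.val + 2 : ℕ) : ZMod p) ^ 2)).det = (((p - 1) / 2 : ℕ) : ℤ) * x ^ 2 := by
  have hp : p.Prime := Fact.out
  have hp2 : p ≠ 2 := by omega
  have h3 : p % 4 = 3 := by omega
  obtain ⟨r, hr⟩ : ∃ r, p = 2 * (2 * r + 1) + 1 := ⟨(p - 3) / 4, by omega⟩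
  set m := 2 * r + 1 with hm
  have hq2 : q p 2 = -1 := by
    have h := legendreSym.at_two (p := p) hp2
    have e : legendreSym p 2 = q p 2 := by simp [legendreSym, q]
    rw [← e, h, ZMod.χ₈_nat_eq_if_mod_eight, if_neg (by omega), if_neg (by omega)]
  obtain ⟨z, hz, hqz⟩ := exists_z m hr (by omega)
  -- the two functions
  set e : ZMod m → ℤ := fun a => ff p (Z m z a) + ff p (-Z m z a) with he
  set o : ZMod m → ℤ := fun a => ff p (Z m z a) - ff p (-Z m z a) with ho
  have hesum : ∑ a, e a = 0 := by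
    have h1 := sum_W h3 hr hz hqz (ff p)
    rw [sum_ff hp2 hq2, ← Finset.sum_add_distrib] at h1
    exact h1.symm
  have hosum : ∑ a, o a = 0 := by
    have h1 := sum_W h3 hr hz hqz (fun t => q p t * ff p t)
    rw [sum_qff h3] at h1
    have e1 : ∀ a : ZMod m, q p (Z m z a) * ff p (Z m z a) = ff p (Z m z a) := by
      intro a; rw [q_Z hqz, one_mul]
    have e2 : ∀ a : ZMod m, q p (-Z m z a) * ff p (-Z m z a) = - ff p (-Z m z a) := by
      intro a; rw [q_neg, q_neg_one_of_three h3, q_Z hqz]; ring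
    rw [Finset.sum_congr rfl (fun a _ => e1 a), Finset.sum_congr rfl (fun a _ => e2 a),
      Finset.sum_neg_distrib] at h1
    rw [ho, Finset.sum_sub_distrib]
    linarith
  -- the symmetry
  have hm2 : q p (-2) = 1 := by
    rw [q_neg, q_neg_one_of_three h3, hq2]; norm_num
  obtain ⟨γ, hγ⟩ : ∃ γ : ZMod m, Z m z γ = -2 := by
    have h1 : (-2 : ZMod p) ∈ (univ : Finset (ZMod m ⊕ ZMod m)).image (W m z) := by
      rw [W_image h3 hr hz hqz, Finset.mem_erase]
      exact ⟨neg_ne_zero.mpr (two_ne hp2), Finset.mem_univ _⟩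
    rw [Finset.mem_image] at h1
    obtain ⟨x, -, hx⟩ := h1
    rcases x with a | a
    · exact ⟨a, hx⟩
    · exfalso
      have h2 := congrArg (q p) hx
      have h4 : q p (W m z (Sum.inr a)) = -1 := by
        show q p (-Z m z a) = -1
        rw [q_neg, q_neg_one_of_three h3, q_Z hqz]; norm_num
      rw [h4, hm2] at h2
      norm_num at h2
  obtain ⟨b, hb⟩ : ∃ b : ZMod m, b + b = γ := by
    refine ⟨γ * (r + 1), ?_⟩
    have h2 : (2 : ZMod m) * (r + 1) = 1 := by
      have : ((m : ℕ) : ZMod m) = 0 := ZMod.natCast_self m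
      rw [hm] at this
      push_cast at this
      linear_combination this
    linear_combination γ * h2
  have hZb : ∀ a : ZMod m, Z m z (-a + b) = -2 / Z m z (a + b) := by
    intro a
    rw [← hγ, ← Z_sub hz]
    congr 1
    rw [← hb]; ring
  have he1 : ∀ a : ZMod m, e (-a + b) = - e (a + b) := by
    intro a
    have hs := Z_ne hz (a + b)
    rw [he]
    simp only
    rw [hZb]
    have e1 : -2 / Z m z (a + b) = 2 / (-Z m z (a + b)) := by
      rw [neg_div, div_neg]
    have e2 : -(-2 / Z m z (a + b)) = 2 / Z m z (a + b) := by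
      rw [neg_div, neg_neg]
    rw [e2, e1, ff_inv hq2 _ (neg_ne_zero.mpr hs), ff_inv hq2 _ hs]
    ring
  have ho1 : ∀ a : ZMod m, o (-a + b) = o (a + b) := by
    intro a
    have hs := Z_ne hz (a + b)
    rw [ho]
    simp only
    rw [hZb]
    have e1 : -2 / Z m z (a + b) = 2 / (-Z m z (a + b)) := by
      rw [neg_div, div_neg]
    have e2 : -(-2 / Z m z (a + b)) = 2 / Z m z (a + b) := by
      rw [neg_div, neg_neg]
    rw [e2, e1, ff_inv hq2 _ (neg_ne_zero.mpr hs), ff_inv hq2 _ hs]
    ring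
  have hE : (Cm m r e).det = ((Pp m r (fun x => e (x + b))).det) ^ 2 := by
    rw [Cm_shift r hm e hesum b]
    exact det_Cm_odd r _ he1
  have hO : (Cm m r o).det = m * ((Pp m r (fun x => o (x + b))).det) ^ 2 := by
    rw [Cm_shift r hm o hosum b]
    apply det_Cm_even r hm _ ho1
    rw [← hosum]
    apply Fintype.sum_equiv (Equiv.addRight b)
    intro x; rfl
  -- reindexing
  set w : (Fin r ⊕ Fin r) ⊕ (Fin r ⊕ Fin r) → ZMod p :=
    Sum.elim (fun y => Z m z (vv m r y)) (fun y => - Z m z (vv m r y)) with hw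
  have hwW : ∀ x, w x = W m z (Sum.map (vv m r) (vv m r) x) := by
    rintro (x | x) <;> rfl
  have hwinj : Function.Injective w := by
    intro x y hxy
    rw [hwW, hwW] at hxy
    have h1 := W_inj h3 hz hqz hxy
    exact Function.Injective.sumMap (vv_inj r rfl) (vv_inj r rfl) h1
  have hw0 : ∀ x, w x ≠ 0 := by
    rintro (x | x)
    · exact Z_ne hz _
    · exact neg_ne_zero.mpr (Z_ne hz _)
  have hw1 : ∀ x, w x ≠ 1 ∧ w x ≠ -1 := by
    intro x
    constructor
    · intro h
      have h1 : w x = W m z (Sum.inl 0) := by rw [h]; show 1 = Z m z 0; rw [Z_zero]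
      rw [hwW] at h1
      have h2 := W_inj h3 hz hqz h1
      rcases x with x | x
      · exact vv_ne r rfl x (Sum.inl_injective h2)
      · simp at h2
    · intro h
      have h1 : w x = W m z (Sum.inr 0) := by rw [h]; show -1 = - Z m z 0; rw [Z_zero]
      rw [hwW] at h1
      have h2 := W_inj h3 hz hqz h1
      rcases x with x | x
      · simp at h2
      · exact vv_ne r rfl x (Sum.inr_injective h2)
  have hwv : ∀ x, 2 ≤ (w x).val ∧ (w x).val < p - 1 := by
    intro x
    have h0 : (w x).val ≠ 0 := by rw [Ne, ZMod.val_eq_zero]; exact hw0 x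
    have h1 : (w x).val ≠ 1 := by
      intro h
      apply (hw1 x).1
      have := ZMod.natCast_zmod_val (w x)
      rw [h] at this
      rw [← this]; simp
    have h2 : (w x).val ≠ p - 1 := by
      intro h
      apply (hw1 x).2
      have := ZMod.natCast_zmod_val (w x)
      rw [h, Nat.cast_sub hp.one_lt.le] at this
      rw [← this]; simp
    have := ZMod.val_lt (w x)
    omega
  have hlt : ∀ x, (w x).val - 2 < p - 3 := by
    intro x
    have := hwv x
    omega
  have hbij : Function.Bijective (fun x => (⟨(w x).val - 2, hlt x⟩ : Fin (p - 3))) := by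
    rw [Fintype.bijective_iff_injective_and_card]
    constructor
    · intro x y hxy
      apply hwinj
      apply ZMod.val_injective
      have h1 : (w x).val - 2 = (w y).val - 2 := congrArg Fin.val hxy
      have := hwv x
      have := hwv y
      omega
    · simp only [Fintype.card_sum, Fintype.card_fin]
      omega
  let τ := Equiv.ofBijective _ hbij
  have hτ : ∀ x, (((τ x).val + 2 : ℕ) : ZMod p) = w x := by
    intro x
    have h4 : (τ x).val + 2 = (w x).val := by
      show (w x).val - 2 + 2 = _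
      have := hwv x
      omega
    rw [h4, ZMod.natCast_zmod_val]
  refine ⟨(Pp m r (fun x => e (x + b))).det * (Pp m r (fun x => o (x + b))).det, ?_⟩
  rw [← Matrix.det_submatrix_equiv_self τ]
  set X : Matrix (Fin r ⊕ Fin r) (Fin r ⊕ Fin r) ℤ :=
    Matrix.of fun x y => ff p (Z m z (vv m r x - vv m r y)) with hX
  set Y : Matrix (Fin r ⊕ Fin r) (Fin r ⊕ Fin r) ℤ :=
    Matrix.of fun x y => ff p (-Z m z (vv m r x - vv m r y)) with hY
  have hblock : (Matrix.of fun j k : Fin (p - 3) => q p (((j.val + 2 : ℕ) : ZMod p) ^ 2 +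
      3 * ((j.val + 2 : ℕ) : ZMod p) * ((k.val + 2 : ℕ) : ZMod p) +
      2 * ((k.val + 2 : ℕ) : ZMod p) ^ 2)).submatrix τ τ = fromBlocks X Y Y X := by
    ext x y
    rw [Matrix.submatrix_apply, Matrix.of_apply, hτ, hτ, ff_div _ _ (hw0 y)]
    rcases x with x | x <;> rcases y with y | y
    · simp only [hw, Sum.elim_inl, fromBlocks_apply₁₁, hX, Matrix.of_apply]
      rw [Z_sub hz]
    · simp only [hw, Sum.elim_inl, Sum.elim_inr, fromBlocks_apply₁₂, hY, Matrix.of_apply]
      rw [Z_sub hz, div_neg]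
    · simp only [hw, Sum.elim_inl, Sum.elim_inr, fromBlocks_apply₂₁, hY, Matrix.of_apply]
      rw [Z_sub hz, neg_div]
    · simp only [hw, Sum.elim_inr, fromBlocks_apply₂₂, hX, Matrix.of_apply]
      rw [Z_sub hz, neg_div_neg_eq]
  rw [hblock, det_swap_blocks]
  have h5 : X + Y = Cm m r e := by ext x y; rfl
  have h6 : X - Y = Cm m r o := by ext x y; rfl
  rw [h5, h6, hE, hO]
  have h7 : (p - 1) / 2 = m := by omega
  rw [h7]
  ring

end Pool.Agent.R945.CD
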